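import Pool.Agent.K9h86.EB.Mn

set_option autoImplicit false

/-! # Equations for the eigencompatibility variety of binary tensors

`EC_{1,d}` is the Zariski closure of the set of the `d`-tuples `(X_1, ..., X_d)` of configurations
of `D_{1,d} = d` points of `ℙ¹` which are the `d` eigenschemes of a tensor `T ∈ (ℂ²)^{⊗ d}`. This
is the answer to Q2 for `n = 1` and all `d ≥ 3`: explicit equations which cut out `EC_{1,d}` in
`((ℙ¹)^{(·d)})^d`. (The dimension, Q1, is in the files `DimEC` and `DimECSchemes` of this folder;
their definitions, in `Pool.Agent.Helper834.EC.Defs`, are used.)

Let `u = v₀ + i v₁` and `w = v₀ - i v₁` be the isotropic coordinates, so that the quadratic form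
is `u w`. For a configuration `X_k` of `d` points `p_1, ..., p_d` with isotropic coordinates
`(u_j : w_j)` put

  `U_k = ∏_j u_j`,  `W_k = ∏_j w_j`,  `M_k = ∑_{|A| = d/2} ∏_{j ∈ A} w_j ∏_{j ∉ A} u_j`  (`d` even);

these are the first, the last and the middle coefficient of the binary form with the zeros `X_k`,
its values at the two isotropic points and its contraction with the `d/2`-th power of the quadratic
form. Then `(X_1, ..., X_d)` is in `EC_{1,d}` if and only if

* `U_k W_l = U_l W_k` for all `k`, `l`, and
* if `d` is even, `∑_k M_k ∏_{l ≠ k} U_l = 0` and `∑_k M_k ∏_{l ≠ k} W_l = 0`.

So for odd `d` the variety `EC_{1,d}` is the set where the `2 × d` matrix with the columns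
`(U_k, W_k)` has rank at most one, and for even `d` there are two further multilinear equations.
Moreover all tuples of finite eigenschemes, with their multiplicities, are in `EC_{1,d}`; so the
closure is the same if the multiplicities are taken into account (`schemeConfs`).

The proof. The `k`-th eigenscheme is the zero set of the binary form
`F_k(v) = T(v, ..., J v, ..., v)`, with the rotation `J` in the `k`-th place, and `J` is diagonal in
the isotropic coordinates. The image of the linear map `T ↦ (F_1, ..., F_d)` is given by the
relations: the first coefficients of all `F_k` are equal, so are the last ones, and the sum of the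
middle ones is zero for even `d` (`exists_tensor`). So `EC_{1,d}` is the closure of the set of the
tuples of forms which satisfy these relations after multiplication with nonzero constants; this
gives the equations, with `U_k = μ_k α`, `W_k = μ_k β` and `∑ M_k / μ_k = 0`. Conversely, it has to
be shown that there are no other components, in particular in the set where several of the `μ_k`
are zero; for this the hypersurface `∑_k x_k ∏_{l ≠ k} μ_l = 0` is shown to be the closure of its
part where all the `μ_k` are nonzero (`mem_closure_Gd`), forms in general position are shown to
have simple zeros (`nodup_cofinite`), and the zeros of a convergent sequence of forms converge to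
the zeros of the limit, by compactness and unique factorisation (`limit_mem`). -/

namespace Pool.Agent.Results.MP_72974f_ag.BinaryEquations

open Pool.Agent.Helper834.EC Pool.Agent.K9h86.EB

/-- **Equations for the eigencompatibility variety of binary tensors.** Let `d ≥ 3`. The point of
`((ℙ¹)^{(·d)})^d` with the homogeneous coordinates `y` is in the eigencompatibility variety
`EC_{1,d}` if and only if the equations `Equations y` hold. Moreover all the tuples of `d`
configurations of points which are the finite eigenschemes, with their multiplicities, of a tensor
are in `EC_{1,d}`. -/
theorem result (d : ℕ) (hd : 3 ≤ d) :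
    (∀ y : Coord 1 d, toConf y ∈ eigencompatibilityVariety 1 d ↔ Equations y) ∧
    eigenConfs 1 d ⊆ schemeConfs d ∧ schemeConfs d ⊆ eigencompatibilityVariety 1 d :=
  main hd

end Pool.Agent.Results.MP_72974f_ag.BinaryEquations
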